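import Pool.Agent.TH681.QC.RateT
import Pool.Agent.W2helper76.UE.Stm
import Pool.Agent.H340R2.LW2

/-!
# Uniform exponents: density (piece D for helper76)
-/

set_option autoImplicit false

namespace Pool.Agent.W2helper78.UE

open Finset Module Pool.Agent.W2helper76.UE Pool.Agent.W245.PB Pool.Agent.TH681.QC

/-- for all distinct exponents the products are linearly independent -/
def GoodV (M : ℕ) {L : Type} (v : L → ℂ) : Prop :=
  ∀ γ : Fin M → QB, Function.Injective γ →
    LinearIndependent QB (fun p : L × Fin M => v p.1 * expQ (Multiplicative.ofAdd (γ p.2)))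

lemma GoodV.reindex {M : ℕ} {L L' : Type} (e : L ≃ L') {v : L' → ℂ} (h : GoodV M (v ∘ e)) :
    GoodV M v := by
  intro γ hγ
  have h1 := h γ hγ
  rw [← linearIndependent_equiv (Equiv.prodCongr e (Equiv.refl (Fin M)))]
  exact h1

/-- The constant family. -/
lemma goodV_one (M : ℕ) : GoodV M (fun _ : Fin 1 => (1 : ℂ)) := by
  classical
  intro γ hγ
  rw [Fintype.linearIndependent_iff]
  intro c hc
  have hinj : Function.Injective (fun p : Fin 1 × Fin M => ((γ p.2 : QB) : ℂ)) := by
    rintro ⟨a, b⟩ ⟨a', b'⟩ h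
    have h2 : γ b = γ b' := Subtype.ext h
    exact Prod.ext (Subsingleton.elim _ _) (hγ h2)
  have h1 := Pool.Agent.H340R2.LW.lindemann_weierstrass (Finset.univ : Finset (Fin 1 × Fin M))
    (fun p => ((γ p.2 : QB) : ℂ)) (fun p => (c p : ℂ))
    (fun p _ => (mem_algebraicClosure_iff).1 (γ p.2).2)
    (fun p _ => (mem_algebraicClosure_iff).1 (c p).2) hinj.injOn (by
      rw [← hc]
      refine Finset.sum_congr rfl fun p _ => ?_
      rw [Algebra.smul_def, one_mul]
      rfl)
  intro p
  exact_mod_cast h1 p (Finset.mem_univ _)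

/-- One more number. -/
lemma GoodV.step {M D : ℕ} {L : Type} [Fintype L] {v : L → ℂ} (h : GoodV M v) {y : ℂ}
    (hy : ¬ Bad QB expQ M D v y) :
    GoodV M (fun p : L × Fin (D + 1) => v p.1 * y ^ (p.2 : ℕ)) := by
  classical
  intro γ hγ
  rw [Fintype.linearIndependent_iff]
  intro c hc
  have h1 : ∑ l, ∑ i, ∑ j, c ((l, i), j) • (v l * y ^ (i : ℕ) * expQ (Multiplicative.ofAdd (γ j))) = 0 := by
    rw [← hc, Fintype.sum_prod_type, Fintype.sum_prod_type]
  have h2 : ∀ i, ∑ l, ∑ j, c ((l, i), j) • (v l * expQ (Multiplicative.ofAdd (γ j))) = 0 := by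
    by_contra hcon
    push Not at hcon
    exact hy ⟨γ, fun l i j => c ((l, i), j), h1, hcon⟩
  rintro ⟨⟨l, i⟩, j⟩
  have h3 := Fintype.linearIndependent_iff.1 (h γ hγ) (fun p => c ((p.1, i), p.2)) (by
    rw [Fintype.sum_prod_type]
    exact h2 i)
  exact h3 (l, j)

/-- One variable. -/
theorem one_var (hG : GridStm) (N M D : ℕ) : ∃ c : ℕ, ∀ x ≥ 16, ∀ v : Fin N → ℂ,
    ∀ A : Finset ℕ, A ⊆ Ioc 0 x → (∀ n ∈ A, Bad QB expQ M D v (Real.log n : ℂ)) →
    (A.card : ℝ) ≤ er c x * x := by
  classical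
  obtain ⟨G, B, hGB⟩ := hG N M D
  obtain ⟨c, hc⟩ := cubes_er (G * B) 0
  refine ⟨c, fun x hx v A hA hbad => ?_⟩
  by_contra hcon
  push Not at hcon
  obtain ⟨a, p, q, ha, hp, hq, hinj, hcube⟩ := hc x hx A hA hcon
  have hli := logLike_complex.indep (G * B) p q (fun i => (hp i).1) (fun i => (hq i).1) hinj
  obtain ⟨η, hη⟩ := hGB v (Real.log ((a * ∏ i, p i : ℕ) : ℝ) : ℂ)
    (fun g b => (Real.log (q (finProdFinEquiv (g, b))) : ℂ) -
      (Real.log (p (finProdFinEquiv (g, b))) : ℂ))
    (fun g => hli.comp (fun b => finProdFinEquiv (g, b)) (fun b b' h => by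
      have := finProdFinEquiv.injective h
      exact (Prod.ext_iff.1 this).2))
  obtain ⟨S, hS⟩ : ∃ S : Finset (Fin (G * B)), S = Finset.univ.filter
      (fun s => η (finProdFinEquiv.symm s).1 = some (finProdFinEquiv.symm s).2) := ⟨_, rfl⟩
  apply hη
  have h1 := hbad _ (hcube S)
  have h2 := logLike_complex.cube a p q ha (fun i => (hp i).1.pos) (fun i => (hq i).1.pos) S
  rw [h2] at h1
  have h3 : ∑ i ∈ S, ((Real.log (q i) : ℂ) - (Real.log (p i) : ℂ)) =
      ∑ g, (η g).elim 0 (fun b => (Real.log (q (finProdFinEquiv (g, b))) : ℂ) -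
        (Real.log (p (finProdFinEquiv (g, b))) : ℂ)) := by
    rw [hS, Finset.sum_filter, ← finProdFinEquiv.sum_comp, Fintype.sum_prod_type]
    refine Finset.sum_congr rfl fun g _ => ?_
    simp only [Equiv.symm_apply_apply]
    cases hg : η g with
    | none => simp
    | some b =>
      rw [Option.elim_some, Finset.sum_eq_single b]
      · rw [if_pos rfl]
      · intro b' _ hb'
        rw [if_neg]
        intro h
        exact hb' (Option.some_injective _ h).symm
      · intro h
        exact absurd (Finset.mem_univ _) h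
  rw [h3] at h1
  exact h1

/-- The family of the products. -/
noncomputable def fam (D : ℕ) {k N : ℕ} (v : Fin N → ℂ) (y : Fin k → ℂ) :
    Fin N × (Fin k → Fin (D + 1)) → ℂ := fun p => v p.1 * ∏ i, y i ^ (p.2 i : ℕ)

/-- The reindexing. -/
def eqv (N D k : ℕ) :
    Fin (N * (D + 1)) × (Fin k → Fin (D + 1)) ≃ Fin N × (Fin (k + 1) → Fin (D + 1)) where
  toFun p := ((finProdFinEquiv.symm p.1).1, Fin.cons (finProdFinEquiv.symm p.1).2 p.2)
  invFun p := (finProdFinEquiv (p.1, p.2 0), Fin.tail p.2)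
  left_inv p := by
    rcases p with ⟨a, b⟩
    refine Prod.ext ?_ ?_
    · show finProdFinEquiv ((finProdFinEquiv.symm a).1, (finProdFinEquiv.symm a).2) = a
      exact finProdFinEquiv.apply_symm_apply a
    · show Fin.tail (Fin.cons (finProdFinEquiv.symm a).2 b : Fin (k + 1) → Fin (D + 1)) = b
      exact Fin.tail_cons _ _
  right_inv p := by
    rcases p with ⟨a, b⟩
    simp

open Classical in
/-- Tuples. -/
theorem tuples (hG : GridStm) (M D k : ℕ) : ∀ N : ℕ, ∃ c : ℕ, ∀ x : ℕ, x ≥ 16 → ∀ v : Fin N → ℂ,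
    GoodV M v → (((Fintype.piFinset fun _ : Fin k => Ioc 0 x).filter (fun n =>
      ¬ GoodV M (fam D v (fun i => (Real.log (n i) : ℂ))))).card : ℝ) ≤ er c x * x ^ k := by
  induction k with
  | zero =>
    intro N
    refine ⟨0, fun x hx v hv => ?_⟩
    rw [Finset.filter_false_of_mem]
    · simp [er_nonneg 0 hx]
    · intro n _
      push Not
      refine GoodV.reindex (Equiv.prodUnique (Fin N) (Fin 0 → Fin (D + 1))).symm ?_
      have : (fam D v (fun i => (Real.log (n i) : ℂ))) ∘
          (Equiv.prodUnique (Fin N) (Fin 0 → Fin (D + 1))).symm = v := by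
        funext l
        simp [fam]
      rwa [this]
  | succ k ih =>
    intro N
    obtain ⟨c₁, hc₁⟩ := one_var hG N M D
    obtain ⟨c₂, hc₂⟩ := ih (N * (D + 1))
    refine ⟨2 * (c₁ + c₂ + 1), fun x hx v hv => ?_⟩
    refine count_cons k x _ (er_pos _ (by omega) hx)
      (fun n => ¬ GoodV M (fam D v (fun i => (Real.log (n i) : ℂ))))
      ((Ioc 0 x).filter (fun n : ℕ => Bad QB expQ M D v (Real.log n : ℂ)))
      (Finset.filter_subset _ _) ?_ ?_ _ (Finset.filter_subset _ _)
      (fun n hn => (Finset.mem_filter.1 hn).2)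
    · refine (hc₁ x hx v _ (Finset.filter_subset _ _)
        (fun n hn => (Finset.mem_filter.1 hn).2)).trans ?_
      have := er_half (c := c₁) (d := c₁ + c₂ + 1) (by omega) hx
      gcongr
    · intro a ha haA B' hB' hbad'
      have hta : ¬ Bad QB expQ M D v (Real.log a : ℂ) := by
        intro hcon
        exact haA (Finset.mem_filter.2 ⟨ha, hcon⟩)
      have hv' := hv.step hta
      obtain ⟨v', hv'def⟩ : ∃ v' : Fin (N * (D + 1)) → ℂ, v' = fun s =>
          v (finProdFinEquiv.symm s).1 * (Real.log a : ℂ) ^ ((finProdFinEquiv.symm s).2 : ℕ) :=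
        ⟨_, rfl⟩
      have hv'' : GoodV M v' := by
        refine GoodV.reindex finProdFinEquiv ?_
        have : v' ∘ finProdFinEquiv =
            fun p : Fin N × Fin (D + 1) => v p.1 * (Real.log a : ℂ) ^ (p.2 : ℕ) := by
          funext p
          rw [hv'def]
          show v (finProdFinEquiv.symm (finProdFinEquiv p)).1 *
            (Real.log a : ℂ) ^ ((finProdFinEquiv.symm (finProdFinEquiv p)).2 : ℕ) = _
          rw [Equiv.symm_apply_apply]
        rwa [this]
      have h1 := hc₂ x hx v' hv''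
      have h2 : B' ⊆ (Fintype.piFinset fun _ : Fin k => Ioc 0 x).filter (fun n =>
          ¬ GoodV M (fam D v' (fun i => (Real.log (n i) : ℂ)))) := by
        intro m hm
        rw [Finset.mem_filter]
        refine ⟨hB' hm, fun hgood => hbad' m hm ?_⟩
        refine GoodV.reindex (eqv N D k) ?_
        have : (fam D v (fun i => (Real.log ((Fin.cons a m : Fin (k + 1) → ℕ) i) : ℂ))) ∘
            eqv N D k = fam D v' (fun i => (Real.log (m i) : ℂ)) := by
          funext p
          rw [hv'def]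
          simp only [fam, eqv, Function.comp_apply, Equiv.coe_fn_mk, Fin.prod_univ_succ,
            Fin.cons_zero, Fin.cons_succ]
          ring
        rwa [this]
      have h4 : (B'.card : ℝ) ≤ _ := (Nat.cast_le.2 (Finset.card_le_card h2)).trans h1
      refine h4.trans ?_
      have := er_half (c := c₂) (d := c₁ + c₂ + 1) (by omega) hx
      gcongr

/-- From `GoodV` to `Good`. -/
lemma good_of {M D k : ℕ} {y : Fin k → ℂ} (h : GoodV M (fam D (fun _ : Fin 1 => (1 : ℂ)) y)) :
    Good M D y := by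
  classical
  intro γ hγ hinj
  have h1 := h (fun j => ⟨γ j, (mem_algebraicClosure_iff).2 (hγ j)⟩) (by
    intro a b hab
    exact hinj (congrArg Subtype.val hab))
  let e : Fin M × (Fin k → Fin (D + 1)) → (Fin 1 × (Fin k → Fin (D + 1))) × Fin M :=
    fun p => ((0, p.2), p.1)
  have he : Function.Injective e := by
    rintro ⟨a, b⟩ ⟨a', b'⟩ hab
    simp only [e, Prod.mk.injEq, true_and] at hab
    exact Prod.ext hab.2 hab.1
  have h2 := h1.comp e he
  have h3 : (fun p : (Fin 1 × (Fin k → Fin (D + 1))) × Fin M =>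
      fam D (fun _ : Fin 1 => (1 : ℂ)) y p.1 *
        expQ (Multiplicative.ofAdd (⟨γ p.2, (mem_algebraicClosure_iff).2 (hγ p.2)⟩ : QB))) ∘ e =
      fun p : Fin M × (Fin k → Fin (D + 1)) => Complex.exp (γ p.1) * ∏ i, y i ^ (p.2 i : ℕ) := by
    funext p
    show (1 : ℂ) * (∏ i, y i ^ (p.2 i : ℕ)) * Complex.exp (γ p.1) = _
    ring
  rw [h3] at h2
  exact h2

theorem dens : GridStm → DensStm := by
  classical
  intro hG M D k
  obtain ⟨c, hc⟩ := tuples hG M D k 1
  refine ⟨c, fun x hx => ?_⟩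
  have h1 := hc x hx (fun _ => 1) (goodV_one M)
  have h2 : (Finset.Icc 1 x) = Ioc 0 x := by
    ext n
    simp only [Finset.mem_Icc, Finset.mem_Ioc]
    omega
  rw [h2]
  refine le_trans ?_ h1
  apply Nat.cast_le.2
  apply Finset.card_le_card
  intro n hn
  rw [Finset.mem_filter] at hn ⊢
  exact ⟨hn.1, fun h => hn.2 (good_of h)⟩

end Pool.Agent.W2helper78.UE
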